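import Mathlib

set_option autoImplicit false
open Set Filter Topology Metric Complex InnerProductSpace Real
open scoped ComplexConjugate RealInnerProductSpace

namespace Pool.Agent.H.MP_29b22c_an

lemma mom {u : ℂ → ℝ} (hu : HarmonicOnNhd u (ball 0 1)) {s : ℝ} (hs : 0 < s) (hs1 : s < 1) (c : ℂ) :
    circleAverage (fun w => u w * (conj c * w).re) 0 s = s ^ 2 / 2 * fderiv ℝ u 0 c := by
  obtain ⟨F, hF, he⟩ := hu.exists_analyticOnNhd_ball_re_eq
  have m0 : (0 : ℂ) ∈ ball (0 : ℂ) 1 := mem_ball_self one_pos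
  have hG : AnalyticOnNhd ℂ (dslope F 0) (ball 0 1) :=
    ((differentiableOn_dslope (isOpen_ball.mem_nhds m0)).2 hF.differentiableOn).analyticOnNhd
      isOpen_ball
  have sb : closedBall (0 : ℂ) |s| ⊆ ball 0 1 := closedBall_subset_ball (by rwa [abs_of_pos hs])
  let H : ℂ → ℂ := fun w => (conj c * w * F w + conj (F 0 * c) * w + c * s ^ 2 * dslope F 0 w) / 2
  have hH : HarmonicOnNhd (fun w => (H w).re) (closedBall 0 |s|) := fun w hw => by
    have h1 := hF w (sb hw)
    have h2 := hG w (sb hw)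
    exact AnalyticAt.harmonicAt_re (by unfold H; fun_prop (disch := norm_num))
  have d : fderiv ℝ u 0 c = (deriv F 0 * c).re := by
    have : u =ᶠ[𝓝 0] fun w => (F w).re := by
      filter_upwards [isOpen_ball.mem_nhds m0] with w hw using (he hw).symm
    rw [this.fderiv_eq]
    have h := (reCLM.hasFDerivAt.comp (0 : ℂ)
      ((hF 0 m0).differentiableAt.hasDerivAt.hasFDerivAt.restrictScalars ℝ)).fderiv
    rw [show (fun w => (F w).re) = reCLM ∘ F from rfl, h]
    simp [mul_comm]
  rw [circleAverage_congr_sphere (f₂ := fun w => (H w).re), hH.circleAverage_eq, d]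
  · simp only [H, mul_zero, zero_mul, zero_add, dslope_same]
    rw [show c * (s : ℂ) ^ 2 * deriv F 0 / 2 = ((s ^ 2 / 2 : ℝ) : ℂ) * (deriv F 0 * c) by
      push_cast; ring, re_ofReal_mul]
  · intro w hw
    have hw' : ‖w‖ = s := by simpa [abs_of_pos hs] using hw
    have e1 : F w = F 0 + w * dslope F 0 w := by
      have := sub_smul_dslope F 0 w
      simp only [sub_zero, smul_eq_mul] at this
      linear_combination -this
    have e2 : w.re ^ 2 + w.im ^ 2 = s ^ 2 := by
      rw [← hw', Complex.sq_norm, normSq_apply]; ring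
    have e3 : u w = (F w).re := (he (sb (sphere_subset_closedBall hw))).symm
    simp only [H, e3]
    rw [e1]
    generalize dslope F 0 w = G
    generalize F 0 = a
    rw [← ofReal_pow, ← e2, div_ofNat_re]
    simp only [add_re, mul_re, mul_im, add_im, conj_re, conj_im, ofReal_re, ofReal_im]
    ring

variable {E : Type*} [NormedAddCommGroup E] [InnerProductSpace ℝ E]

lemma harm_lin (L : ℂ →L[ℝ] E) (z : ℂ) : HarmonicAt L z :=
  (AnalyticAt.harmonicAt (f := id) analyticAt_id).comp_CLM L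

lemma rigid {f : ℂ → E} (hf : HarmonicOnNhd f (ball 0 1)) (hb : ∀ z ∈ ball (0 : ℂ) 1, ‖f z‖ < 1)
    {r : ℝ} (hr : 0.999 < r) (h1 : ‖fderiv ℝ f 0 1‖ = r) (h2 : ‖fderiv ℝ f 0 I‖ = r)
    (h3 : ⟪fderiv ℝ f 0 1, fderiv ℝ f 0 I⟫ = 0) :
    ∃ ρ, 0 < ρ ∧ ρ < 1 ∧ ∀ z ∈ sphere (0 : ℂ) ρ, 0.3 ≤ ‖f z‖ := by
  have r0 : 0 < r := by linarith
  set s := 0.999 / r with hs
  have s0 : 0 < s := by positivity
  have s1 : s < 1 := by rw [hs, div_lt_one r0]; exact hr
  have rs : r * s = 0.999 := by rw [hs]; field_simp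
  clear_value s
  have m0 : (0 : ℂ) ∈ ball (0 : ℂ) 1 := mem_ball_self one_pos
  have hd : DifferentiableAt ℝ f 0 := (hf 0 m0).1.differentiableAt (by norm_num)
  set L := fderiv ℝ f 0 with hL
  have Lw : ∀ w : ℂ, L w = w.re • L 1 + w.im • L I := fun w => by
    rw [← map_smul, ← map_smul, ← map_add]; congr 1; simp
  have nL : ∀ w : ℂ, ‖L w‖ = r * ‖w‖ := fun w => by
    have : ‖L w‖ ^ 2 = (r * ‖w‖) ^ 2 := by
      rw [Lw, norm_add_sq_real, inner_smul_left, inner_smul_right, h3, norm_smul, norm_smul, h1, h2,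
        mul_pow r, Complex.sq_norm, normSq_apply]
      simp only [Real.norm_eq_abs, mul_pow, sq_abs]
      ring
    exact (pow_left_inj₀ (norm_nonneg _) (by positivity) two_ne_zero).1 this
  have sb : closedBall (0 : ℂ) s ⊆ ball 0 1 := closedBall_subset_ball s1
  have cf : ContinuousOn f (sphere 0 s) := hf.continuousOn.mono (sphere_subset_closedBall.trans sb)
  have mm : ∀ c : ℂ, circleAverage (fun w => ⟪L c, f w⟫ * (conj c * w).re) 0 s
      = s ^ 2 / 2 * (r * ‖c‖) ^ 2 := fun c => by
    have := mom (hf.comp_CLM (innerSL ℝ (L c))) s0 s1 c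
    rw [fderiv_comp _ (innerSL ℝ (L c)).differentiableAt hd, ContinuousLinearMap.fderiv] at this
    simp only [Function.comp, innerSL_apply_apply, ContinuousLinearMap.comp_apply] at this
    rw [this, ← hL, real_inner_self_eq_norm_sq, nL]
  have ci : ∀ g : ℂ → ℝ, ContinuousOn g (sphere 0 s) → CircleIntegrable g 0 s :=
    fun g hg => hg.circleIntegrable s0.le
  have m2 : circleAverage (fun w => ⟪L w, f w⟫) 0 s = (r * s) ^ 2 := by
    have : (fun w => ⟪L w, f w⟫) = fun w => ⟪L 1, f w⟫ * (conj (1 : ℂ) * w).re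
        + ⟪L I, f w⟫ * (conj I * w).re := by
      ext w
      rw [Lw w, inner_add_left, real_inner_smul_left, real_inner_smul_left]
      simp [mul_comm]
    rw [this, circleAverage_fun_add (ci _ (by fun_prop)) (ci _ (by fun_prop)), mm, mm]
    simp; ring
  refine ⟨s / 2, by positivity, by linarith, fun z hz => ?_⟩
  have nz : ‖z‖ = s / 2 := by simpa using hz
  have zb : z ∈ ball (0 : ℂ) s := by simp [nz, s0]
  let u : ℂ → ℝ := fun w => ⟪L z, (r * s) • f w - L w⟫
  have hu : HarmonicOnNhd u (closedBall 0 s) := fun w hw =>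
    (((hf w (sb hw)).const_smul (c := r * s)).sub (harm_lin L w)).comp_CLM (innerSL ℝ (L z))
  have pz := hu.circleAverage_poissonKernel_smul zb
  have cP : ContinuousOn (poissonKernel 0 z) (sphere 0 s) := by
    rw [poissonKernel_eq_re_herglotzRieszKernel]
    exact continuous_re.comp_continuousOn (by
      simpa [abs_of_pos s0] using continuousOn_herglotzRieszKernel_sphere zb)
  have key : circleAverage (fun w => -1.5 * (0.05 + 10 * (0.999 - ⟪L w, f w⟫))) 0 s ≤ u z := by
    rw [← pz]
    refine circleAverage_mono (ci _ (by fun_prop)) (ci _ (cP.smul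
      (hu.continuousOn.mono sphere_subset_closedBall))) fun w hw => ?_
    rw [abs_of_pos s0] at hw
    have nw : ‖w‖ = s := by simpa using hw
    have p1 := re_herglotzRieszKernel_le hw zb
    have p0 := le_re_herglotzRieszKernel hw zb
    have : poissonKernel 0 z w = ((w - 0 + (z - 0)) / (w - 0 - (z - 0))).re := by
      rw [poissonKernel_eq_re_herglotzRieszKernel]; rfl
    rw [← this, sub_zero, nz] at p1 p0
    have p1' : poissonKernel 0 z w ≤ 3 := p1.trans (by rw [div_le_iff₀ (by linarith)]; linarith)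
    have p0' : 0 ≤ poissonKernel 0 z w := le_trans (div_nonneg (by linarith) (by linarith)) p0
    have a1 := abs_real_inner_le_norm (L z) ((r * s) • f w - L w)
    have a2 := norm_sub_sq_real ((r * s) • f w) (L w)
    have a3 := hb w (sb (sphere_subset_closedBall hw))
    rw [norm_smul, real_inner_smul_left, nL, nw, rs, real_inner_comm, Real.norm_eq_abs,
      abs_of_pos (by norm_num)] at a2
    rw [nL, nz, ← mul_div_assoc, rs] at a1
    simp only [Pi.smul_apply', smul_eq_mul, u, rs]
    generalize poissonKernel 0 z w = P at *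
    generalize ⟪L z, (0.999 : ℝ) • f w - L w⟫ = A at *
    generalize ‖(0.999 : ℝ) • f w - L w‖ = N at *
    generalize ⟪L w, f w⟫ = B at *
    have a4 : ‖f w‖ ^ 2 ≤ 1 := by nlinarith [norm_nonneg (f w)]
    have a5 : N ≤ 0.05 + 10 * (0.999 - B) := by nlinarith [sq_nonneg (N - 0.1)]
    have a6 := neg_le_of_abs_le a1
    have a7 : 0 ≤ N := by nlinarith [abs_nonneg A]
    nlinarith
  have e : (fun w => -1.5 * (0.05 + 10 * (0.999 - ⟪L w, f w⟫))) =
      fun w => (15 : ℝ) • ⟪L w, f w⟫ + (-15.06 : ℝ) := by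
    ext w; simp only [smul_eq_mul]; ring
  rw [e, circleAverage_fun_add (ci _ (by fun_prop)) (ci _ (by fun_prop)), circleAverage_fun_smul,
    m2, circleAverage_const, rs] at key
  simp only [u, inner_sub_right, real_inner_smul_right, real_inner_self_eq_norm_sq, smul_eq_mul,
    rs] at key
  have := real_inner_le_norm (L z) (f z)
  rw [nL, nz, ← mul_div_assoc, rs] at this key
  nlinarith

lemma nopos {u : ℂ → ℝ} (hu : HarmonicOnNhd u (ball 0 1)) {ρ : ℝ} (h0 : 0 < ρ) (h1 : ρ < 1)
    (hp : ∀ z ∈ sphere (0 : ℂ) ρ, 0 < u z) : 0 < u 0 := by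
  have sb : closedBall (0 : ℂ) |ρ| ⊆ ball 0 1 := closedBall_subset_ball (by rwa [abs_of_pos h0])
  have c : ContinuousOn u (sphere 0 |ρ|) :=
    hu.continuousOn.mono (sphere_subset_closedBall.trans sb)
  obtain ⟨z, hz, hm⟩ := (isCompact_sphere (0 : ℂ) |ρ|).exists_isMinOn
    (NormedSpace.sphere_nonempty.2 (abs_nonneg ρ)) c
  rw [← (hu.mono sb).circleAverage_eq]
  refine (hp z (by rwa [abs_of_pos h0] at hz)).trans_le ?_
  rw [← circleAverage_const (u z) 0 ρ]
  exact circleAverage_mono (continuousOn_const.circleIntegrable') c.circleIntegrable' hm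

end Pool.Agent.H.MP_29b22c_an
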